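import Pool.Agent.R950.TA6

/-!
# Topological transcendence degree and topological generating degree in uncountable rank

Let `K / k` be an extension of analytic fields (complete fields with a non-archimedean real absolute
value, possibly trivial), and let `Ω` be the completion of an algebraic closure of `K`. We prove
`Topdeg (K / k) ≤ max (topdeg (K / k), ℵ₁)`. In particular there is no extension with
`ℵ₁ ≤ topdeg (K / k) < Topdeg (K / k)`.

Idea: for an algebraically closed subfield `F` and `z ∈ Ω` let `d(z, F)` be the distance. Key lemma: if
`F ⊆ L` are algebraically closed and `d(z, F) = d(z, L) > 0` then `d(w, F) = d(w, L)` for all `w`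
algebraic over `F(z)`. Call `E ⊆ K` orthogonal over `S` if for all `s ∈ E` the distance of `s` to the
field generated by `S` is positive and the same as the one to the field generated by `S` and `E - s`.
Orthogonal sets are independent, and maximal ones exist. Adding maximal orthogonal sets `ω₁` times one
gets a set `C`, the union of sets `C_i`, of cardinality at most `max (topdeg, ℵ₁)`. If it does not
generate, take `z ∈ K` not in the closed field it generates; since `ω₁` has uncountable cofinality,
`d(z, C_i) = d(z, C)` for some `i < ω₁`, and by the key lemma `z` can be added to the maximal orthogonal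
set over `C_i`, a contradiction.
-/

set_option autoImplicit false

universe u v w

namespace Pool.Agent.Results.MP_769310_ag.DegreesAgree

open Pool.Agent.R950.TA Cardinal

/-- For every extension `K / k` of analytic fields `Topdeg (K / k) ≤ max (topdeg (K / k), ℵ₁)`, so that
`ℵ₁ ≤ topdeg (K / k) < Topdeg (K / k)` never holds. -/
theorem result (k : Type u) (K : Type v) (Ω : Type w)
    [NormedField k] [CompleteSpace k] [IsUltrametricDist k]
    [NormedField K] [CompleteSpace K] [IsUltrametricDist K] [NormedAlgebra k K]
    [NormedField Ω] [NormedAlgebra k Ω] [NormedAlgebra K Ω] [IsScalarTower k K Ω]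
    (hΩ : IsCompletedAlgClosure K Ω) :
    Topdeg k Ω K ≤ max (topdeg k Ω K) ℵ₁ ∧ ¬ (ℵ₁ ≤ topdeg k Ω K ∧ topdeg k Ω K < Topdeg k Ω K) := by
  have h := main k K Ω hΩ
  refine ⟨h, ?_⟩
  rintro ⟨h1, h2⟩
  rw [max_eq_left h1] at h
  exact absurd h2 (not_lt.2 h)

end Pool.Agent.Results.MP_769310_ag.DegreesAgree
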